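import Mathlib
import Pool.Agent.H326R2.Pi.Top
import Pool.Agent.H43R2.Cplx.EFinal

set_option autoImplicit false

/-! # Irrationality measures of `e` and `π` in the form needed -/

namespace Pool.Agent.H639R3.PQ

theorem measure_e : ∃ μ : ℕ, ∀ q : ℕ, 1 ≤ q → ∀ p : ℤ,
    1 ≤ (2 * (q : ℝ)) ^ μ * |q * Real.exp 1 - p| := by
  obtain ⟨c, hc, h⟩ := Pool.Agent.H43R2.Cplx.EMeas.measure 1 one_pos
  obtain ⟨n, hn⟩ := pow_unbounded_of_one_lt (1 / c) (one_lt_two : (1 : ℝ) < 2)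
  refine ⟨n + 2, fun q hq p => ?_⟩
  have hq0 : (1 : ℝ) ≤ q := by exact_mod_cast hq
  have h1 := h q hq p
  have h2 : (q : ℝ) ^ (1 + 1 : ℝ) = (q : ℝ) ^ 2 := by
    rw [show (1 + 1 : ℝ) = ((2 : ℕ) : ℝ) by norm_num, Real.rpow_natCast]
  rw [h2] at h1
  have h3 : 1 ≤ (2 : ℝ) ^ n * c := by
    rw [div_lt_iff₀ hc] at hn
    exact hn.le
  calc (1 : ℝ) ≤ (2 : ℝ) ^ n * c := h3
    _ ≤ (2 : ℝ) ^ n * ((q : ℝ) ^ 2 * |q * Real.exp 1 - p|) :=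
        mul_le_mul_of_nonneg_left h1 (by positivity)
    _ = ((2 : ℝ) ^ n * (q : ℝ) ^ 2) * |q * Real.exp 1 - p| := by ring
    _ ≤ (2 * (q : ℝ)) ^ (n + 2) * |q * Real.exp 1 - p| := by
        apply mul_le_mul_of_nonneg_right _ (abs_nonneg _)
        rw [mul_pow]
        exact mul_le_mul (pow_le_pow_right₀ (by norm_num) (by omega))
          (pow_le_pow_right₀ hq0 (by omega)) (by positivity) (by positivity)

theorem measure_pi : ∃ μ : ℕ, ∀ q : ℕ, 1 ≤ q → ∀ p : ℤ,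
    1 ≤ (2 * (q : ℝ)) ^ μ * |q * Real.pi - p| := by
  obtain ⟨q0, h⟩ := Pool.Agent.H326R2.Pi.main
  set Q : ℕ := q0 + 1 with hQ
  have hQ1 : (1 : ℝ) ≤ Q := by exact_mod_cast (by omega : 1 ≤ Q)
  refine ⟨8 * Q + 8, fun q hq p => ?_⟩
  have hq1 : (1 : ℝ) ≤ q := by exact_mod_cast hq
  have hqQ : q0 ≤ q * Q := by nlinarith
  have h1 := h (q * Q) hqQ (p * Q)
  have hqQ1 : (1 : ℝ) ≤ ((q * Q : ℕ) : ℝ) := by
    exact_mod_cast Nat.mul_pos hq (by omega : 0 < Q)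
  have e1 : |Real.pi - ((p * Q : ℤ) : ℝ) / ((q * Q : ℕ) : ℝ)| ≤ |q * Real.pi - p| := by
    have e : (q : ℝ) * Real.pi - p = q * (Real.pi - ((p * Q : ℤ) : ℝ) / ((q * Q : ℕ) : ℝ)) := by
      push_cast
      field_simp
    rw [e, abs_mul, abs_of_nonneg (by positivity : (0 : ℝ) ≤ q)]
    exact le_mul_of_one_le_left (abs_nonneg _) hq1
  have h2 : (((q * Q : ℕ) : ℝ) ^ 8)⁻¹ ≤ |q * Real.pi - p| := by
    refine le_trans ?_ (h1.trans e1)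
    rw [← Real.rpow_natCast, ← Real.rpow_neg (by positivity)]
    exact Real.rpow_le_rpow_of_exponent_le hqQ1 (by norm_num)
  have h3 : ((q * Q : ℕ) : ℝ) ^ 8 ≤ (2 * (q : ℝ)) ^ (8 * Q + 8) := by
    have h4 : (Q : ℝ) ≤ 2 ^ Q := by exact_mod_cast (Nat.lt_two_pow_self (n := Q)).le
    push_cast
    calc ((q : ℝ) * Q) ^ 8 = (q : ℝ) ^ 8 * (Q : ℝ) ^ 8 := by ring
      _ ≤ (q : ℝ) ^ (8 * Q + 8) * ((2 : ℝ) ^ Q) ^ 8 :=
          mul_le_mul (pow_le_pow_right₀ hq1 (by omega)) (pow_le_pow_left₀ (by positivity) h4 8)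
            (by positivity) (by positivity)
      _ ≤ (q : ℝ) ^ (8 * Q + 8) * (2 : ℝ) ^ (8 * Q + 8) := by
          rw [← pow_mul]
          exact mul_le_mul_of_nonneg_left (pow_le_pow_right₀ (by norm_num) (by omega))
            (by positivity)
      _ = _ := by rw [mul_pow]; ring
  have h5 : (0 : ℝ) < ((q * Q : ℕ) : ℝ) ^ 8 := by positivity
  calc (1 : ℝ) = ((q * Q : ℕ) : ℝ) ^ 8 * (((q * Q : ℕ) : ℝ) ^ 8)⁻¹ := (mul_inv_cancel₀ h5.ne').symm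
    _ ≤ ((q * Q : ℕ) : ℝ) ^ 8 * |q * Real.pi - p| := mul_le_mul_of_nonneg_left h2 h5.le
    _ ≤ _ := mul_le_mul_of_nonneg_right h3 (abs_nonneg _)

end Pool.Agent.H639R3.PQ
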