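import Mathlib

set_option autoImplicit false

/-! # A uniform version of Vijayaraghavan's argument for powers of `p/q` -/

namespace Pool.Agent.H639R3.PQ

theorem isCoprime_diff {p q : ℕ} (hcop : Nat.Coprime p q) (u v : ℕ) (hv : 1 ≤ v) :
    IsCoprime (q : ℤ) ((p : ℤ) ^ u * ((p : ℤ) ^ v - (q : ℤ) ^ v)) := by
  have h1 : IsCoprime (q : ℤ) (p : ℤ) := (Nat.isCoprime_iff_coprime.2 hcop).symm
  refine IsCoprime.mul_right h1.pow_right ?_
  have h2 : IsCoprime (q : ℤ) ((p : ℤ) ^ v) := h1.pow_right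
  obtain ⟨w, rfl⟩ : ∃ w, v = w + 1 := ⟨v - 1, by omega⟩
  have h3 : (p : ℤ) ^ (w + 1) - (q : ℤ) ^ (w + 1) = (p : ℤ) ^ (w + 1) + (q : ℤ) * (-(q : ℤ) ^ w) := by
    ring
  rw [h3]
  exact IsCoprime.add_mul_left_right h2 _

/-- the core: a sequence `t (i+1) = (p/q) t i` with `t 0 ≠ 0` close to an integer cannot return
mod 1 within every window of length `J` -/
theorem core (p q : ℕ) (hq : 2 ≤ q) (hpq : q < p) (hcop : Nat.Coprime p q) (J : ℕ) :
    ∃ κ : ℝ, 0 < κ ∧ ∀ t : ℕ → ℝ, (∀ i, t (i + 1) = ((p : ℝ) / q) * t i) → t 0 ≠ 0 →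
      |t 0 - round (t 0)| ≤ 2 * κ →
      (∀ a, ∃ i i', a ≤ i ∧ i < i' ∧ i' < a + J ∧
        |(t i' - t i) - round (t i' - t i)| ≤ 4 * κ) → False := by
  have hq0 : (0 : ℝ) < q := by
    have : 0 < q := by omega
    exact_mod_cast this
  have hp0 : (0 : ℝ) < p := by
    have : 0 < p := by omega
    exact_mod_cast this
  have hp1 : (1 : ℝ) ≤ p := by
    have : 1 ≤ p := by omega
    exact_mod_cast this
  set θ : ℝ := (p : ℝ) / q with hθ
  have hθ1 : 1 < θ := by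
    rw [hθ, lt_div_iff₀ hq0, one_mul]
    exact_mod_cast hpq
  have hθ0 : 0 < θ := by linarith
  have hθq : θ * q = p := by rw [hθ]; field_simp
  have hθp : θ ≤ p := by
    rw [hθ, div_le_iff₀ hq0]
    have : (1 : ℝ) ≤ q := by
      have : 1 ≤ q := by omega
      exact_mod_cast this
    nlinarith
  set τ : ℝ := 1 / (8 * (p : ℝ) ^ (J + 1)) with hτ
  have hpJ : (1 : ℝ) ≤ (p : ℝ) ^ (J + 1) := one_le_pow₀ hp1
  have hτ0 : 0 < τ := by positivity
  have hτ8 : τ ≤ 1 / 8 := by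
    rw [hτ]
    apply one_div_le_one_div_of_le (by norm_num)
    linarith
  have hτp : (p : ℝ) ^ (J + 1) * τ = 1 / 8 := by
    rw [hτ]; field_simp
  set κ : ℝ := τ * (θ - 1) / (8 * θ ^ (J + 2)) with hκ
  have hκ0 : 0 < κ := by
    have : 0 < θ - 1 := by linarith
    positivity
  have hκe : κ * (8 * θ ^ (J + 2)) = τ * (θ - 1) := by
    rw [hκ]; field_simp
  have hθJ : (1 : ℝ) ≤ θ ^ (J + 1) := one_le_pow₀ hθ1.le
  have hθJ2 : θ ^ (J + 2) = θ * θ ^ (J + 1) := by ring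
  -- κ θ^(J+1) ≤ τ / 8
  have hκ1 : κ * θ ^ (J + 1) ≤ τ / 8 := by
    have h1 : κ * (8 * θ ^ (J + 2)) ≤ τ * θ := by
      rw [hκe]; nlinarith
    rw [hθJ2] at h1
    have h2 : θ * (κ * θ ^ (J + 1) * 8) ≤ θ * τ := by nlinarith
    have h3 := le_of_mul_le_mul_left h2 hθ0
    linarith
  have hκ2 : κ ≤ τ / 8 := by nlinarith
  refine ⟨κ, hκ0, fun t ht ht0 hr hA => ?_⟩
  have hstep : ∀ u i, t (i + u) = θ ^ u * t i := by
    intro u
    induction u with
    | zero => intro i; simp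
    | succ u ih => intro i; rw [← add_assoc, ht, ih, pow_succ]; ring
  -- step 1
  have step1 : ∀ (i : ℕ) (m : ℤ), |t i - m| ≤ τ → (q : ℤ) ∣ m := by
    intro i m hm
    obtain ⟨j, j', h1, h2, h3, h4⟩ := hA (i + 1)
    obtain ⟨u, rfl⟩ : ∃ u, j = i + u := ⟨j - i, by omega⟩
    obtain ⟨v, rfl⟩ : ∃ v, j' = i + (u + v) := ⟨j' - i - u, by omega⟩
    have hv : 1 ≤ v := by omega
    have hu : 1 ≤ u := by omega
    have huv : u + v ≤ J := by omega
    set w : ℤ := round (t (i + (u + v)) - t (i + u)) with hw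
    rw [hstep, hstep] at h4
    set r : ℝ := t i - m with hr'
    have hti : t i = m + r := by rw [hr']; ring
    rw [hti] at h4
    have e1 : (q : ℝ) ^ (u + v) * (θ ^ (u + v) * ((m : ℝ) + r) - θ ^ u * ((m : ℝ) + r) - w)
        = (((m * ((p : ℤ) ^ u * ((p : ℤ) ^ v - (q : ℤ) ^ v)) - w * (q : ℤ) ^ (u + v) : ℤ)) : ℝ)
          + (p : ℝ) ^ (u + v) * r - (p : ℝ) ^ u * (q : ℝ) ^ v * r := by
      push_cast
      rw [hθ, div_pow, div_pow, pow_add, pow_add]
      field_simp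
      ring
    set E : ℤ := m * ((p : ℤ) ^ u * ((p : ℤ) ^ v - (q : ℤ) ^ v)) - w * (q : ℤ) ^ (u + v) with hE
    have hqp : (q : ℝ) ≤ p := by exact_mod_cast hpq.le
    have b1 : (p : ℝ) ^ (u + v) ≤ (p : ℝ) ^ (J + 1) := pow_le_pow_right₀ hp1 (by omega)
    have b2 : (q : ℝ) ^ (u + v) ≤ (p : ℝ) ^ (J + 1) :=
      (pow_le_pow_left₀ hq0.le hqp _).trans b1
    have b3 : (p : ℝ) ^ u * (q : ℝ) ^ v ≤ (p : ℝ) ^ (J + 1) := by
      calc (p : ℝ) ^ u * (q : ℝ) ^ v ≤ (p : ℝ) ^ u * (p : ℝ) ^ v :=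
            mul_le_mul_of_nonneg_left (pow_le_pow_left₀ hq0.le hqp _) (by positivity)
        _ = (p : ℝ) ^ (u + v) := by rw [pow_add]
        _ ≤ _ := b1
    have b4 : |(q : ℝ) ^ (u + v) * (θ ^ (u + v) * ((m : ℝ) + r) - θ ^ u * ((m : ℝ) + r) - w)|
        ≤ (p : ℝ) ^ (J + 1) * (4 * κ) := by
      rw [abs_mul, abs_of_nonneg (by positivity : (0 : ℝ) ≤ (q : ℝ) ^ (u + v))]
      exact mul_le_mul b2 h4 (abs_nonneg _) (by positivity)
    have b5 : (p : ℝ) ^ (J + 1) * (4 * κ) ≤ 1 / 16 := by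
      have : (p : ℝ) ^ (J + 1) * κ ≤ (p : ℝ) ^ (J + 1) * (τ / 8) :=
        mul_le_mul_of_nonneg_left hκ2 (by positivity)
      nlinarith
    have b6 : |(p : ℝ) ^ (u + v) * r| ≤ 1 / 8 := by
      rw [abs_mul, abs_of_nonneg (by positivity : (0 : ℝ) ≤ (p : ℝ) ^ (u + v))]
      calc _ ≤ (p : ℝ) ^ (J + 1) * τ := mul_le_mul b1 hm (abs_nonneg _) (by positivity)
        _ = _ := hτp
    have b7 : |(p : ℝ) ^ u * (q : ℝ) ^ v * r| ≤ 1 / 8 := by
      rw [abs_mul, abs_of_nonneg (by positivity : (0 : ℝ) ≤ (p : ℝ) ^ u * (q : ℝ) ^ v)]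
      calc _ ≤ (p : ℝ) ^ (J + 1) * τ := mul_le_mul b3 hm (abs_nonneg _) (by positivity)
        _ = _ := hτp
    rw [e1] at b4
    have b8 : |(E : ℝ)| < 1 := by
      rw [abs_lt]
      obtain ⟨c1, c2⟩ := abs_le.1 b4
      obtain ⟨c3, c4⟩ := abs_le.1 b6
      obtain ⟨c5, c6⟩ := abs_le.1 b7
      constructor <;> linarith
    have hE0 : E = 0 := by
      have : |E| < 1 := by exact_mod_cast b8
      exact Int.abs_lt_one_iff.1 this
    have hd : (q : ℤ) ∣ m * ((p : ℤ) ^ u * ((p : ℤ) ^ v - (q : ℤ) ^ v)) := by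
      have : m * ((p : ℤ) ^ u * ((p : ℤ) ^ v - (q : ℤ) ^ v)) = w * (q : ℤ) ^ (u + v) := by
        linarith [hE0, hE]
      rw [this]
      exact Dvd.dvd.mul_left (dvd_pow_self _ (by omega)) _
    exact (isCoprime_diff hcop u v hv).dvd_of_dvd_mul_right hd
  -- step 2
  set m0 : ℤ := round (t 0) with hm0
  set ρ : ℝ := t 0 - m0 with hρ
  have step2 : ∀ i, (∀ j < i, θ ^ j * |ρ| ≤ τ) →
      ∃ m : ℤ, t i = m + θ ^ i * ρ ∧ m * (q : ℤ) ^ i = m0 * (p : ℤ) ^ i := by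
    intro i
    induction i with
    | zero => intro _; exact ⟨m0, by rw [hρ]; simp, by simp⟩
    | succ i ih =>
      intro hj
      obtain ⟨m, hm, hm2⟩ := ih (fun j hji => hj j (by omega))
      have h1 : |t i - m| ≤ τ := by
        rw [hm, show (m : ℝ) + θ ^ i * ρ - m = θ ^ i * ρ by ring, abs_mul,
          abs_of_nonneg (by positivity : (0 : ℝ) ≤ θ ^ i)]
        exact hj i (by omega)
      obtain ⟨c, hc⟩ := step1 i m h1
      refine ⟨p * c, ?_, ?_⟩
      · rw [ht, hm, hc]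
        push_cast
        rw [pow_succ]
        linear_combination (c : ℝ) * hθq
      · rw [hc] at hm2
        rw [pow_succ, pow_succ]
        linear_combination (p : ℤ) * hm2
  by_cases hρ0 : ρ = 0
  · have hall : ∀ i, (q : ℤ) ^ i ∣ m0 := by
      intro i
      obtain ⟨m, _, hm2⟩ := step2 i (by intro j _; rw [hρ0]; simp; exact hτ0.le)
      have h1 : IsCoprime ((q : ℤ) ^ i) ((p : ℤ) ^ i) :=
        ((Nat.isCoprime_iff_coprime.2 hcop).symm).pow
      exact h1.dvd_of_dvd_mul_right ⟨m, by rw [← hm2]; ring⟩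
    have hm00 : m0 = 0 := by
      by_contra hne
      have h1 : m0.natAbs < q ^ m0.natAbs := Nat.lt_pow_self (by omega)
      have h2 := hall m0.natAbs
      have h3 : q ^ m0.natAbs ∣ m0.natAbs := by
        have := Int.natAbs_dvd_natAbs.2 h2
        rwa [Int.natAbs_pow, Int.natAbs_natCast] at this
      have h4 := Nat.le_of_dvd (Int.natAbs_pos.2 hne) h3
      omega
    apply ht0
    have : t 0 = m0 + ρ := by rw [hρ]; ring
    rw [this, hρ0, hm00]
    simp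
  · have hρp : 0 < |ρ| := abs_pos.2 hρ0
    have hex : ∃ I : ℕ, τ < θ ^ (I + 1) * |ρ| := by
      obtain ⟨n, hn⟩ := pow_unbounded_of_one_lt (τ / |ρ|) hθ1
      refine ⟨n, ?_⟩
      rw [div_lt_iff₀ hρp] at hn
      calc τ < θ ^ n * |ρ| := hn
        _ ≤ θ ^ (n + 1) * |ρ| :=
          mul_le_mul_of_nonneg_right (pow_le_pow_right₀ hθ1.le (by omega)) hρp.le
    classical
    set I := Nat.find hex with hI
    have hI1 : τ < θ ^ (I + 1) * |ρ| := Nat.find_spec hex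
    have hρκ : |ρ| ≤ 2 * κ := hr
    have hIle : ∀ j ≤ I, θ ^ j * |ρ| ≤ τ := by
      intro j hj
      rcases j with _ | j
      · simp only [pow_zero, one_mul]; linarith
      · have := Nat.find_min hex (show j < Nat.find hex by omega)
        exact not_lt.1 this
    have hIJ : J ≤ I := by
      by_contra hcon
      push Not at hcon
      have h1 : θ ^ (I + 1) * |ρ| ≤ θ ^ (J + 1) * (2 * κ) :=
        mul_le_mul (pow_le_pow_right₀ hθ1.le (by omega)) hρκ hρp.le (by positivity)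
      linarith
    obtain ⟨i, i', h1, h2, h3, h4⟩ := hA (I + 1 - J)
    obtain ⟨m, hm, _⟩ := step2 i (fun j hj => hIle j (by omega))
    obtain ⟨m', hm', _⟩ := step2 i' (fun j hj => hIle j (by omega))
    set w : ℤ := round (t i' - t i) with hw
    rw [hm, hm'] at h4
    obtain ⟨v, rfl⟩ : ∃ v, i' = i + v := ⟨i' - i, by omega⟩
    have hv : 1 ≤ v := by omega
    set s : ℝ := (θ ^ (i + v) - θ ^ i) * ρ with hs
    have hpow : θ ^ i * θ ≤ θ ^ (i + v) := by
      rw [← pow_succ]; exact pow_le_pow_right₀ hθ1.le (by omega)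
    have hi0 : 0 < θ ^ i := by positivity
    have hnn : 0 ≤ θ ^ (i + v) - θ ^ i := by nlinarith
    have hs1 : |s| ≤ τ := by
      rw [hs, abs_mul, abs_of_nonneg hnn]
      calc (θ ^ (i + v) - θ ^ i) * |ρ| ≤ θ ^ (i + v) * |ρ| := by
            apply mul_le_mul_of_nonneg_right _ hρp.le; linarith
        _ ≤ τ := hIle _ (by omega)
    have hs2 : θ ^ (I + 1 - J) * (θ - 1) * |ρ| ≤ |s| := by
      rw [hs, abs_mul, abs_of_nonneg hnn]
      apply mul_le_mul_of_nonneg_right _ hρp.le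
      have : θ ^ (I + 1 - J) ≤ θ ^ i := pow_le_pow_right₀ hθ1.le h1
      nlinarith
    have hs3 : τ * (θ - 1) < θ ^ J * |s| := by
      have h5 : θ ^ J * θ ^ (I + 1 - J) = θ ^ (I + 1) := by rw [← pow_add]; congr 1; omega
      have h6 : θ ^ (I + 1) * (θ - 1) * |ρ| ≤ θ ^ J * |s| := by
        rw [← h5]
        have := mul_le_mul_of_nonneg_left hs2 (by positivity : (0 : ℝ) ≤ θ ^ J)
        linarith
      have h7 : τ * (θ - 1) < θ ^ (I + 1) * |ρ| * (θ - 1) :=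
        mul_lt_mul_of_pos_right hI1 (by linarith)
      linarith
    have hw1 : (w - (m' - m) : ℤ) = 0 := by
      rw [← Int.abs_lt_one_iff]
      have : |((w - (m' - m) : ℤ) : ℝ)| < 1 := by
        push_cast
        rw [abs_lt]
        obtain ⟨c1, c2⟩ := abs_le.1 h4
        obtain ⟨c3, c4⟩ := abs_le.1 hs1
        rw [hs] at c3 c4
        constructor <;> nlinarith
      exact_mod_cast this
    have hw2 : (w : ℝ) = m' - m := by
      have : w = m' - m := by omega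
      rw [this]; push_cast; ring
    have h8 : |s| ≤ 4 * κ := by
      rw [hw2] at h4
      have e : (m' : ℝ) + θ ^ (i + v) * ρ - (m + θ ^ i * ρ) - (m' - m) = s := by rw [hs]; ring
      rw [e] at h4
      exact h4
    have h9 : θ ^ J * |s| ≤ θ ^ (J + 2) * (4 * κ) := by
      apply mul_le_mul (pow_le_pow_right₀ hθ1.le (by omega)) h8 (abs_nonneg _) (by positivity)
    nlinarith

end Pool.Agent.H639R3.PQ
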