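import Mathlib
import Pool.Agent.H639R3.PQ.Core
import Pool.Agent.H238R3.UL.Sep

set_option autoImplicit false

/-! # Uniform separation of the tails of `ξ (p/q)^n` mod 1 -/

namespace Pool.Agent.H639R3.PQ

open Pool.Agent.H238R3.UL

theorem sep (p q : ℕ) (hq : 2 ≤ q) (hpq : q < p) (hcop : Nat.Coprime p q) (n R : ℕ) (hR : 1 ≤ R) :
    ∃ η : ℝ, 0 < η ∧ ∀ ξ : ℝ, ξ ≠ 0 → ∃ s : Finset ℕ, s.card = n ∧
      ∀ i ∈ s, ∀ j ∈ s, i ≠ j → ∀ h ∈ Finset.Icc 1 R,
        η ≤ |(h : ℝ) * (((p : ℝ) / q) ^ i * ξ - ((p : ℝ) / q) ^ j * ξ)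
          - round ((h : ℝ) * (((p : ℝ) / q) ^ i * ξ - ((p : ℝ) / q) ^ j * ξ))| := by
  classical
  obtain ⟨κ, hκ, hcore⟩ := core p q hq hpq hcop (n * n + 1)
  have hR0 : (0 : ℝ) < R.factorial := by exact_mod_cast Nat.factorial_pos R
  have hq0 : (0 : ℝ) < q := by
    have : 0 < q := by omega
    exact_mod_cast this
  set θ : ℝ := (p : ℝ) / q with hθ
  have hθ1 : 1 < θ := by
    rw [hθ, lt_div_iff₀ hq0, one_mul]
    exact_mod_cast hpq
  refine ⟨κ / R.factorial, by positivity, fun ξ hξ => ?_⟩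
  set y : ℕ → UnitAddCircle := fun i => ((θ ^ i * ξ : ℝ) : UnitAddCircle) with hy
  by_contra hcon
  have hns : ¬ ∃ s : Finset ℕ, s.card = n ∧ ∀ i ∈ s, ∀ j ∈ s, i ≠ j → ∀ h ∈ Finset.Icc 1 R,
      κ / R.factorial ≤ ‖h • (y i - y j)‖ := by
    rintro ⟨s, hs, h1⟩
    apply hcon
    refine ⟨s, hs, fun i hi j hj hij h hh => ?_⟩
    have h2 := h1 i hi j hj hij h hh
    have e : h • (y i - y j) = (((h : ℝ) * (θ ^ i * ξ - θ ^ j * ξ) : ℝ) : UnitAddCircle) := by
      rw [hy]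
      simp only
      rw [← AddCircle.coe_sub, ← AddCircle.coe_nsmul, nsmul_eq_mul]
    rw [e, UnitAddCircle.norm_eq] at h2
    exact h2
  obtain ⟨s, hsn, hs⟩ := cells y n R hR _ (by positivity) hns
  choose f hf1 hf2 using hs
  have hRe : (R.factorial : ℝ) * (κ / R.factorial) = κ := by field_simp
  rw [hRe] at hf2
  -- closeness
  have hclose : ∀ k k', f k = f k' → ‖R.factorial • (y k - y k')‖ ≤ 2 * κ := by
    intro k k' h
    have e : R.factorial • (y k - y k')
        = R.factorial • (y k - y (f k)) - R.factorial • (y k' - y (f k')) := by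
      rw [h, ← smul_sub]; congr 1; abel
    rw [e]
    calc _ ≤ ‖R.factorial • (y k - y (f k))‖ + ‖R.factorial • (y k' - y (f k'))‖ := norm_sub_le _ _
      _ ≤ κ + κ := add_le_add (hf2 k) (hf2 k')
      _ = _ := by ring
  -- first coincidence
  obtain ⟨k, k', hkk, hfk⟩ : ∃ k k', k < k' ∧ f k = f k' := by
    obtain ⟨a, ha, b, hb, hab, h⟩ := Finset.exists_ne_map_eq_of_card_lt_of_maps_to
      (s := Finset.range (n + 1)) (t := s) (f := f) (by rw [Finset.card_range]; omega)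
      (fun a _ => hf1 a)
    rcases lt_or_gt_of_ne hab with h3 | h3
    · exact ⟨a, b, h3, h⟩
    · exact ⟨b, a, h3, h.symm⟩
  set t : ℕ → ℝ := fun i => R.factorial * (θ ^ (k' + i) * ξ - θ ^ (k + i) * ξ) with ht
  have hcoe : ∀ i, ((t i : ℝ) : UnitAddCircle) = R.factorial • (y (k' + i) - y (k + i)) := by
    intro i
    rw [ht, hy]
    simp only
    rw [← AddCircle.coe_sub, ← AddCircle.coe_nsmul, nsmul_eq_mul]
  refine hcore t ?_ ?_ ?_ ?_
  · intro i
    simp only [ht]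
    rw [← add_assoc, ← add_assoc, pow_succ, pow_succ]
    ring
  · simp only [ht, add_zero]
    have h1 : θ ^ k < θ ^ k' := pow_lt_pow_right₀ hθ1 hkk
    have h2 : θ ^ k' * ξ - θ ^ k * ξ = (θ ^ k' - θ ^ k) * ξ := by ring
    rw [h2]
    exact mul_ne_zero hR0.ne' (mul_ne_zero (by linarith [sub_pos.2 h1] : θ ^ k' - θ ^ k ≠ 0) hξ)
  · rw [← UnitAddCircle.norm_eq, hcoe]
    simp only [add_zero]
    exact hclose k' k hfk.symm
  · intro a
    obtain ⟨i, hi, j, hj, hij, h⟩ := Finset.exists_ne_map_eq_of_card_lt_of_maps_to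
      (s := Finset.Ico a (a + (n * n + 1))) (t := s ×ˢ s)
      (f := fun i => (f (k + i), f (k' + i))) (by
        rw [Finset.card_product, Nat.card_Ico]
        have : s.card * s.card ≤ n * n := Nat.mul_le_mul hsn.le hsn.le
        omega)
      (fun i _ => Finset.mem_product.2 ⟨hf1 _, hf1 _⟩)
    have key : ∀ i j, (f (k + i), f (k' + i)) = (f (k + j), f (k' + j)) →
        |(t j - t i) - round (t j - t i)| ≤ 4 * κ := by
      intro i j h
      have h2 := Prod.mk.inj h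
      rw [← UnitAddCircle.norm_eq, AddCircle.coe_sub, hcoe, hcoe]
      have e : R.factorial • (y (k' + j) - y (k + j)) - R.factorial • (y (k' + i) - y (k + i))
          = R.factorial • (y (k' + j) - y (k' + i)) - R.factorial • (y (k + j) - y (k + i)) := by
        rw [← smul_sub, ← smul_sub]; congr 1; abel
      rw [e]
      calc _ ≤ ‖R.factorial • (y (k' + j) - y (k' + i))‖ + ‖R.factorial • (y (k + j) - y (k + i))‖ :=
            norm_sub_le _ _
        _ ≤ 2 * κ + 2 * κ := add_le_add (hclose _ _ h2.2.symm) (hclose _ _ h2.1.symm)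
        _ = _ := by ring
    have hi' := Finset.mem_Ico.1 hi
    have hj' := Finset.mem_Ico.1 hj
    rcases lt_or_gt_of_ne hij with h3 | h3
    · exact ⟨i, j, hi'.1, h3, hj'.2, key i j h⟩
    · exact ⟨j, i, hj'.1, h3, hi'.2, key j i h.symm⟩

end Pool.Agent.H639R3.PQ
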