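import Mathlib
import Pool.Agent.H639R3.PQ.Sep
import Pool.Agent.H238R3.UL.MainP

set_option autoImplicit false

/-! # Uniform theorem on polynomial progressions for the powers of `p/q` -/

namespace Pool.Agent.H639R3.PQ

open Filter Polynomial Pool.Agent.H238R3.UL

theorem main (p q : ℕ) (hq : 2 ≤ q) (hpq : q < p) (hcop : Nat.Coprime p q) (d : ℕ) (ε δ : ℝ)
    (hε : 0 < ε) (hδ : 0 < δ) :
    ∃ N₀ : ℕ, ∀ P : ℝ[X], P.natDegree ≤ d + 1 → P.coeff (d + 1) ≠ 0 →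
      ∀ N ≥ N₀, ∀ S : Finset ℕ, S ⊆ Finset.range N →
      (∀ l ∈ S, ¬ ∀ γ : ℝ, ∃ᶠ n : ℕ in atTop,
        |(((p : ℝ) / q) ^ n * P.eval (l : ℝ) - γ)
          - round (((p : ℝ) / q) ^ n * P.eval (l : ℝ) - γ)| < ε) →
      (S.card : ℝ) ≤ δ * N := by
  classical
  obtain ⟨R0, hR0⟩ := exists_nat_ge (1 / (4 * ε ^ 2))
  obtain ⟨R, hRR, hR1⟩ : ∃ R : ℕ, 1 / (4 * ε ^ 2) ≤ R ∧ 1 ≤ R :=
    ⟨R0 + 1, by push_cast; linarith, by omega⟩
  obtain ⟨n, hn⟩ := exists_nat_ge (2 * R * (R + 1) ^ 4 / δ + 1)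
  obtain ⟨M, hM1, hcount⟩ := countP d ε δ hε hδ R hRR n hn
  obtain ⟨η, hη, hsep⟩ := sep p q hq hpq hcop n (M * R) (Nat.mul_pos hM1 hR1)
  obtain ⟨N₀, hN₀⟩ := hcount η hη
  have hq0 : (0 : ℝ) < q := by
    have : 0 < q := by omega
    exact_mod_cast this
  have hp0 : (0 : ℝ) < p := by
    have : 0 < p := by omega
    exact_mod_cast this
  set θ : ℝ := (p : ℝ) / q with hθ
  have hθ0 : 0 < θ := by positivity
  refine ⟨N₀, fun P hP hc N hN S hS hbad => ?_⟩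
  have h1 : ∀ l ∈ S, ∃ γ : ℝ, ∃ T : ℕ, ∀ k ≥ T,
      ε ≤ |(θ ^ k * P.eval (l : ℝ) - γ) - round (θ ^ k * P.eval (l : ℝ) - γ)| := by
    intro l hl
    have h := hbad l hl
    push Not at h
    obtain ⟨γ, hγ⟩ := h
    obtain ⟨T, hT⟩ := eventually_atTop.1 hγ
    exact ⟨γ, T, fun k hk => hT k hk⟩
  choose! g T hT using h1
  obtain ⟨T₀, hT₀⟩ : ∃ T₀ : ℕ, ∀ l ∈ S, T l ≤ T₀ := ⟨S.sup T, fun l hl => Finset.le_sup hl⟩
  obtain ⟨s, hsn, hs⟩ := hsep (θ ^ T₀ * P.coeff (d + 1)) (mul_ne_zero (by positivity) hc)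
  set em := s.orderEmbOfFin hsn with hem
  have hmem : ∀ i, em i ∈ s := fun i => Finset.orderEmbOfFin_mem s hsn i
  refine hN₀ (fun i => C (θ ^ (T₀ + em i)) * P) ?_ ?_ N hN S hS ?_
  · intro i
    exact (natDegree_C_mul_le _ _).trans hP
  · intro i j hij h hh
    have h2 := hs (em i) (hmem i) (em j) (hmem j) (fun h => hij (em.injective h)) h hh
    have e : (C (θ ^ (T₀ + em i)) * P).coeff (d + 1) - (C (θ ^ (T₀ + em j)) * P).coeff (d + 1)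
        = θ ^ em i * (θ ^ T₀ * P.coeff (d + 1)) - θ ^ em j * (θ ^ T₀ * P.coeff (d + 1)) := by
      rw [coeff_C_mul, coeff_C_mul, pow_add, pow_add]; ring
    simp only [e]
    exact h2
  · intro l hl
    refine ⟨g l, fun i => ?_⟩
    have h2 := hT l hl (T₀ + em i) (by have := hT₀ l hl; omega)
    have e : (C (θ ^ (T₀ + em i)) * P).eval (l : ℝ) = θ ^ (T₀ + em i) * P.eval (l : ℝ) := by
      rw [eval_mul, eval_C]
    simp only [e]
    exact h2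

/-- all degrees from `1` to `d` at once -/
theorem main' (p q : ℕ) (hq : 2 ≤ q) (hpq : q < p) (hcop : Nat.Coprime p q) (d : ℕ) (ε δ : ℝ)
    (hε : 0 < ε) (hδ : 0 < δ) :
    ∃ N₀ : ℕ, ∀ P : ℝ[X], 1 ≤ P.natDegree → P.natDegree ≤ d →
      ∀ N ≥ N₀, ∀ S : Finset ℕ, S ⊆ Finset.range N →
      (∀ l ∈ S, ¬ ∀ γ : ℝ, ∃ᶠ n : ℕ in atTop,
        |(((p : ℝ) / q) ^ n * P.eval (l : ℝ) - γ)
          - round (((p : ℝ) / q) ^ n * P.eval (l : ℝ) - γ)| < ε) →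
      (S.card : ℝ) ≤ δ * N := by
  choose N₀ hN₀ using fun e => main p q hq hpq hcop e ε δ hε hδ
  refine ⟨(Finset.range d).sup N₀, fun P h1 h2 N hN S hS hbad => ?_⟩
  obtain ⟨e, he⟩ : ∃ e, P.natDegree = e + 1 := ⟨P.natDegree - 1, by omega⟩
  refine hN₀ e P he.le ?_ N ?_ S hS hbad
  · rw [← he]
    have hP : P ≠ 0 := by rintro rfl; simp at h1
    exact leadingCoeff_ne_zero.2 hP
  · exact (Finset.le_sup (f := N₀) (Finset.mem_range.2 (by omega))).trans hN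

end Pool.Agent.H639R3.PQ
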