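import Mathlib
import Pool.Agent.H238R3.UL.Sep
import Pool.Agent.H238R3.UL.MainP

set_option autoImplicit false

/-! # Separation of `ξ b^n` mod 1 in windows, for numbers that are not Liouville numbers -/

namespace Pool.Agent.H639R3.PQ

open Pool.Agent.H238R3.UL Filter Polynomial

theorem core1w (b : ℕ) (hb : 2 ≤ b) (J : ℕ) :
    ∃ κ : ℝ, 0 < κ ∧ ∀ (W : ℕ) (t : ℕ → ℝ), (∀ i, t (i + 1) = b * t i) →
      1 ≤ (b : ℝ) ^ W * |t 0 - round (t 0)| → |t 0 - round (t 0)| ≤ 2 * κ →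
      (∀ a, a + J ≤ W + 1 → ∃ i i', a ≤ i ∧ i < i' ∧ i' < a + J ∧
        |(t i' - t i) - round (t i' - t i)| ≤ 4 * κ) → False := by
  set θ : ℝ := (b : ℝ) with hθ
  have hθ2 : 2 ≤ θ := by rw [hθ]; exact_mod_cast hb
  have hθ1 : 1 < θ := by linarith
  have hθ0 : 0 < θ := by linarith
  set κ : ℝ := 1 / (64 * θ ^ (J + 2)) with hκ
  have hκ0 : 0 < κ := by positivity
  have hκe : θ ^ (J + 2) * κ = 1 / 64 := by rw [hκ]; field_simp
  have hθJ : (1 : ℝ) ≤ θ ^ (J + 1) := one_le_pow₀ hθ1.le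
  have hκ1 : θ ^ (J + 1) * κ ≤ 1 / 64 := by
    rw [← hκe]
    exact mul_le_mul_of_nonneg_right (pow_le_pow_right₀ hθ1.le (by omega)) hκ0.le
  have hκ2 : κ ≤ 1 / 64 := by nlinarith
  refine ⟨κ, hκ0, fun W t ht ht0 hr hA => ?_⟩
  have hstep : ∀ u, t u = θ ^ u * t 0 := by
    intro u
    induction u with
    | zero => simp
    | succ u ih => rw [ht, ih, pow_succ]; ring
  set m0 : ℤ := round (t 0) with hm0
  set ρ : ℝ := t 0 - m0 with hρ
  have hρ0 : ρ ≠ 0 := by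
    intro h
    rw [h] at ht0
    simp at ht0
    linarith
  have hρp : 0 < |ρ| := abs_pos.2 hρ0
  have step2 : ∀ i, t i = ((m0 * (b : ℤ) ^ i : ℤ) : ℝ) + θ ^ i * ρ := by
    intro i
    rw [hstep i, hρ]; push_cast; ring
  have hWI : 1 / 8 < θ ^ (W + 1) * |ρ| := by
    have : θ ^ W * |ρ| ≤ θ ^ (W + 1) * |ρ| :=
      mul_le_mul_of_nonneg_right (pow_le_pow_right₀ hθ1.le (by omega)) hρp.le
    linarith
  have hex : ∃ I : ℕ, 1 / 8 < θ ^ (I + 1) * |ρ| := ⟨W, hWI⟩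
  classical
  set I := Nat.find hex with hI
  have hI1 : 1 / 8 < θ ^ (I + 1) * |ρ| := Nat.find_spec hex
  have hIW : I ≤ W := Nat.find_min' hex hWI
  have hρκ : |ρ| ≤ 2 * κ := hr
  have hIle : ∀ j ≤ I, θ ^ j * |ρ| ≤ 1 / 8 := by
    intro j hj
    rcases j with _ | j
    · simp only [pow_zero, one_mul]; linarith
    · have := Nat.find_min hex (show j < Nat.find hex by omega)
      exact not_lt.1 this
  have hIJ : J ≤ I := by
    by_contra hcon
    push Not at hcon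
    have h1 : θ ^ (I + 1) * |ρ| ≤ θ ^ (J + 1) * (2 * κ) :=
      mul_le_mul (pow_le_pow_right₀ hθ1.le (by omega)) hρκ hρp.le (by positivity)
    linarith
  obtain ⟨i, i', h1, h2, h3, h4⟩ := hA (I + 1 - J) (by omega)
  have hm := step2 i
  have hm' := step2 i'
  set m : ℤ := m0 * (b : ℤ) ^ i with hmdef
  set m' : ℤ := m0 * (b : ℤ) ^ i' with hmdef'
  set w : ℤ := round (t i' - t i) with hw
  rw [hm, hm'] at h4
  obtain ⟨v, rfl⟩ : ∃ v, i' = i + v := ⟨i' - i, by omega⟩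
  have hv : 1 ≤ v := by omega
  set s : ℝ := (θ ^ (i + v) - θ ^ i) * ρ with hs
  have hpow : θ ^ i * θ ≤ θ ^ (i + v) := by
    rw [← pow_succ]; exact pow_le_pow_right₀ hθ1.le (by omega)
  have hi0 : 0 < θ ^ i := by positivity
  have hnn : 0 ≤ θ ^ (i + v) - θ ^ i := by nlinarith
  have hs1 : |s| ≤ 1 / 8 := by
    rw [hs, abs_mul, abs_of_nonneg hnn]
    calc (θ ^ (i + v) - θ ^ i) * |ρ| ≤ θ ^ (i + v) * |ρ| := by
          apply mul_le_mul_of_nonneg_right _ hρp.le; linarith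
      _ ≤ 1 / 8 := hIle _ (by omega)
  have hs2 : θ ^ (I + 1 - J) * |ρ| ≤ |s| := by
    rw [hs, abs_mul, abs_of_nonneg hnn]
    apply mul_le_mul_of_nonneg_right _ hρp.le
    have : θ ^ (I + 1 - J) ≤ θ ^ i := pow_le_pow_right₀ hθ1.le h1
    nlinarith
  have hs3 : 1 / 8 < θ ^ J * |s| := by
    have h5 : θ ^ J * θ ^ (I + 1 - J) = θ ^ (I + 1) := by rw [← pow_add]; congr 1; omega
    have h6 : θ ^ (I + 1) * |ρ| ≤ θ ^ J * |s| := by
      rw [← h5]
      have := mul_le_mul_of_nonneg_left hs2 (by positivity : (0 : ℝ) ≤ θ ^ J)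
      linarith
    linarith
  have hw1 : (w - (m' - m) : ℤ) = 0 := by
    rw [← Int.abs_lt_one_iff]
    have : |((w - (m' - m) : ℤ) : ℝ)| < 1 := by
      push_cast
      rw [abs_lt]
      obtain ⟨c1, c2⟩ := abs_le.1 h4
      obtain ⟨c3, c4⟩ := abs_le.1 hs1
      rw [hs] at c3 c4
      constructor <;> nlinarith
    exact_mod_cast this
  have hw2 : (w : ℝ) = m' - m := by
    have : w = m' - m := by omega
    rw [this]; push_cast; ring
  have h8 : |s| ≤ 4 * κ := by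
    rw [hw2] at h4
    have e : (m' : ℝ) + θ ^ (i + v) * ρ - (m + θ ^ i * ρ) - (m' - m) = s := by rw [hs]; ring
    rw [e] at h4
    exact h4
  have h9 : θ ^ J * |s| ≤ θ ^ (J + 2) * (4 * κ) := by
    apply mul_le_mul (pow_le_pow_right₀ hθ1.le (by omega)) h8 (abs_nonneg _) (by positivity)
  linarith

theorem sep1w (b : ℕ) (hb : 2 ≤ b) (n R : ℕ) (hR : 1 ≤ R) :
    ∃ η : ℝ, 0 < η ∧ ∀ (W : ℕ) (ξ : ℝ),
      (∀ k k', k < k' → k' ≤ n → ∀ p : ℤ,
        1 ≤ (b : ℝ) ^ W * |R.factorial * ((b : ℝ) ^ k' * ξ - (b : ℝ) ^ k * ξ) - p|) →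
      ∃ s : Finset ℕ, s.card = n ∧ (∀ i ∈ s, i ≤ n + W) ∧
      ∀ i ∈ s, ∀ j ∈ s, i ≠ j → ∀ h ∈ Finset.Icc 1 R,
        η ≤ |(h : ℝ) * ((b : ℝ) ^ i * ξ - (b : ℝ) ^ j * ξ)
          - round ((h : ℝ) * ((b : ℝ) ^ i * ξ - (b : ℝ) ^ j * ξ))| := by
  classical
  obtain ⟨κ, hκ, hcore⟩ := core1w b hb (n * n + 1)
  have hR0 : (0 : ℝ) < R.factorial := by exact_mod_cast Nat.factorial_pos R
  set θ : ℝ := (b : ℝ) with hθ
  have hθ1 : 1 < θ := by rw [hθ]; exact_mod_cast (by omega : 1 < b)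
  refine ⟨κ / R.factorial, by positivity, fun W ξ hξ => ?_⟩
  set y : ℕ → UnitAddCircle := fun i => ((θ ^ (min i (n + W)) * ξ : ℝ) : UnitAddCircle) with hy
  have hyle : ∀ i, i ≤ n + W → y i = ((θ ^ i * ξ : ℝ) : UnitAddCircle) := by
    intro i hi
    simp only [hy, min_eq_left hi]
  have hymin : ∀ i, y (min i (n + W)) = y i := by
    intro i
    simp only [hy, min_assoc, min_self]
  have hκR : 0 < κ / R.factorial := by positivity
  by_contra hcon
  have hns : ¬ ∃ s : Finset ℕ, s.card = n ∧ ∀ i ∈ s, ∀ j ∈ s, i ≠ j → ∀ h ∈ Finset.Icc 1 R,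
      κ / R.factorial ≤ ‖h • (y i - y j)‖ := by
    rintro ⟨s, hs, h1⟩
    apply hcon
    have hinj : Set.InjOn (fun i => min i (n + W)) (s : Set ℕ) := by
      intro i hi j hj hij
      by_contra hne
      have h2 := h1 i hi j hj hne 1 (Finset.mem_Icc.2 ⟨le_rfl, hR⟩)
      simp only at hij
      rw [← hymin i, ← hymin j, hij, sub_self, smul_zero, norm_zero] at h2
      linarith
    refine ⟨s.image (fun i => min i (n + W)), by rw [Finset.card_image_of_injOn hinj, hs], ?_, ?_⟩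
    · intro i hi
      obtain ⟨a, _, rfl⟩ := Finset.mem_image.1 hi
      exact min_le_right _ _
    · intro i hi j hj hij h hh
      obtain ⟨a, ha, rfl⟩ := Finset.mem_image.1 hi
      obtain ⟨c, hc, rfl⟩ := Finset.mem_image.1 hj
      have hac : a ≠ c := by rintro rfl; exact hij rfl
      have h2 := h1 a ha c hc hac h hh
      have e : h • (y a - y c) = (((h : ℝ) * (θ ^ (min a (n + W)) * ξ - θ ^ (min c (n + W)) * ξ) : ℝ)
          : UnitAddCircle) := by
        simp only [hy]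
        rw [← AddCircle.coe_sub, ← AddCircle.coe_nsmul, nsmul_eq_mul]
      rw [e, UnitAddCircle.norm_eq] at h2
      exact h2
  obtain ⟨s, hsn, hs⟩ := cells y n R hR _ hκR hns
  choose f hf1 hf2 using hs
  have hRe : (R.factorial : ℝ) * (κ / R.factorial) = κ := by field_simp
  rw [hRe] at hf2
  have hclose : ∀ k k', f k = f k' → ‖R.factorial • (y k - y k')‖ ≤ 2 * κ := by
    intro k k' h
    have e : R.factorial • (y k - y k')
        = R.factorial • (y k - y (f k)) - R.factorial • (y k' - y (f k')) := by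
      rw [h, ← smul_sub]; congr 1; abel
    rw [e]
    calc _ ≤ ‖R.factorial • (y k - y (f k))‖ + ‖R.factorial • (y k' - y (f k'))‖ := norm_sub_le _ _
      _ ≤ κ + κ := add_le_add (hf2 k) (hf2 k')
      _ = _ := by ring
  obtain ⟨k, k', hkk, hkn, hfk⟩ : ∃ k k', k < k' ∧ k' ≤ n ∧ f k = f k' := by
    obtain ⟨a, ha, c, hc, hab, h⟩ := Finset.exists_ne_map_eq_of_card_lt_of_maps_to
      (s := Finset.range (n + 1)) (t := s) (f := f) (by rw [Finset.card_range]; omega)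
      (fun a _ => hf1 a)
    have ha' := Finset.mem_range.1 ha
    have hc' := Finset.mem_range.1 hc
    rcases lt_or_gt_of_ne hab with h3 | h3
    · exact ⟨a, c, h3, by omega, h⟩
    · exact ⟨c, a, h3, by omega, h.symm⟩
  set t : ℕ → ℝ := fun i => R.factorial * (θ ^ (k' + i) * ξ - θ ^ (k + i) * ξ) with ht
  have hcoe : ∀ i, i ≤ W → ((t i : ℝ) : UnitAddCircle) = R.factorial • (y (k' + i) - y (k + i)) := by
    intro i hi
    rw [hyle _ (by omega), hyle _ (by omega), ht]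
    simp only
    rw [← AddCircle.coe_sub, ← AddCircle.coe_nsmul, nsmul_eq_mul]
  refine hcore W t ?_ ?_ ?_ ?_
  · intro i
    simp only [ht]
    rw [← add_assoc, ← add_assoc, pow_succ, pow_succ]
    ring
  · have := hξ k k' hkk hkn (round (t 0))
    simpa only [ht, add_zero] using this
  · rw [← UnitAddCircle.norm_eq, hcoe 0 (Nat.zero_le _)]
    simp only [add_zero]
    exact hclose k' k hfk.symm
  · intro a haW
    obtain ⟨i, hi, j, hj, hij, h⟩ := Finset.exists_ne_map_eq_of_card_lt_of_maps_to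
      (s := Finset.Ico a (a + (n * n + 1))) (t := s ×ˢ s)
      (f := fun i => (f (k + i), f (k' + i))) (by
        rw [Finset.card_product, Nat.card_Ico]
        have : s.card * s.card ≤ n * n := Nat.mul_le_mul hsn.le hsn.le
        omega)
      (fun i _ => Finset.mem_product.2 ⟨hf1 _, hf1 _⟩)
    have hi' := Finset.mem_Ico.1 hi
    have hj' := Finset.mem_Ico.1 hj
    have key : ∀ i j, i ≤ W → j ≤ W → (f (k + i), f (k' + i)) = (f (k + j), f (k' + j)) →
        |(t j - t i) - round (t j - t i)| ≤ 4 * κ := by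
      intro i j hiW hjW h
      have h2 := Prod.mk.inj h
      rw [← UnitAddCircle.norm_eq, AddCircle.coe_sub, hcoe j hjW, hcoe i hiW]
      have e : R.factorial • (y (k' + j) - y (k + j)) - R.factorial • (y (k' + i) - y (k + i))
          = R.factorial • (y (k' + j) - y (k' + i)) - R.factorial • (y (k + j) - y (k + i)) := by
        rw [← smul_sub, ← smul_sub]; congr 1; abel
      rw [e]
      calc _ ≤ ‖R.factorial • (y (k' + j) - y (k' + i))‖ + ‖R.factorial • (y (k + j) - y (k + i))‖ :=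
            norm_sub_le _ _
        _ ≤ 2 * κ + 2 * κ := add_le_add (hclose _ _ h2.2.symm) (hclose _ _ h2.1.symm)
        _ = _ := by ring
    rcases lt_or_gt_of_ne hij with h3 | h3
    · exact ⟨i, j, hi'.1, h3, hj'.2, key i j (by omega) (by omega) h⟩
    · exact ⟨j, i, hj'.1, h3, hi'.2, key j i (by omega) (by omega) h.symm⟩

/-- counting in windows -/
theorem count1w (b : ℕ) (hb : 2 ≤ b) (d : ℕ) (ε δ : ℝ) (hε : 0 < ε) (hδ : 0 < δ) (μ : ℕ) :
    ∃ N₀ B : ℕ, ∀ x : ℝ, (∀ q : ℕ, 1 ≤ q → ∀ p : ℤ, 1 ≤ (2 * (q : ℝ)) ^ μ * |q * x - p|) →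
      ∀ P : ℝ[X], P.natDegree ≤ d + 1 → P.coeff (d + 1) = x →
      ∀ N ≥ N₀, ∀ T : ℕ, ∀ S : Finset ℕ, S ⊆ Finset.range N →
      (∀ l ∈ S, ∃ γ : ℝ, ∀ k, T ≤ k → k ≤ (μ + 1) * T + B →
        ε ≤ |((b : ℝ) ^ k * P.eval (l : ℝ) - γ) - round ((b : ℝ) ^ k * P.eval (l : ℝ) - γ)|) →
      (S.card : ℝ) ≤ δ * N := by
  classical
  obtain ⟨R0, hR0⟩ := exists_nat_ge (1 / (4 * ε ^ 2))
  obtain ⟨R, hRR, hR1⟩ : ∃ R : ℕ, 1 / (4 * ε ^ 2) ≤ R ∧ 1 ≤ R :=
    ⟨R0 + 1, by push_cast; linarith, by omega⟩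
  obtain ⟨n, hn⟩ := exists_nat_ge (2 * R * (R + 1) ^ 4 / δ + 1)
  obtain ⟨M, hM1, hcount⟩ := countP d ε δ hε hδ R hRR n hn
  obtain ⟨η, hη, hsep⟩ := sep1w b hb n (M * R) (Nat.mul_pos hM1 hR1)
  obtain ⟨N₀, hN₀⟩ := hcount η hη
  set r : ℕ := (M * R).factorial with hr
  have hbr : (1 : ℝ) ≤ b := by exact_mod_cast (by omega : 1 ≤ b)
  have hb0 : 0 < b := by omega
  refine ⟨N₀, n + μ * (n + r + 1), fun x hx P hP hc N hN T S hS hbad => ?_⟩
  choose! g hg using hbad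
  have hcond : ∀ k k', k < k' → k' ≤ n → ∀ p : ℤ,
      1 ≤ (b : ℝ) ^ (μ * (n + T + r + 1)) * |(r : ℝ) * ((b : ℝ) ^ k' * ((b : ℝ) ^ T * x)
        - (b : ℝ) ^ k * ((b : ℝ) ^ T * x)) - p| := by
    intro k k' hkk hkn p
    have hlt : b ^ k < b ^ k' := Nat.pow_lt_pow_right (by omega) hkk
    set q : ℕ := r * (b ^ k' - b ^ k) * b ^ T with hq
    have hr1 : 1 ≤ r := Nat.factorial_pos _
    have hq1 : 1 ≤ q := by
      have h1 : 0 < b ^ k' - b ^ k := by omega
      have h2 : 0 < b ^ T := by positivity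
      exact Nat.mul_pos (Nat.mul_pos hr1 h1) h2
    have hqr : (q : ℝ) = r * ((b : ℝ) ^ k' - (b : ℝ) ^ k) * (b : ℝ) ^ T := by
      rw [hq]; push_cast [Nat.cast_sub hlt.le]; ring
    have h1 := hx q hq1 p
    have h2 : 2 * (q : ℝ) ≤ (b : ℝ) ^ (n + T + r + 1) := by
      have h3 : 2 * q ≤ b ^ (n + T + r + 1) := by
        have e : b ^ (n + T + r + 1) = b * (b ^ r * b ^ n * b ^ T) := by ring
        rw [e, hq]
        have h4 : r ≤ b ^ r := (Nat.lt_pow_self (by omega)).le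
        have h5 : b ^ k' - b ^ k ≤ b ^ n :=
          (Nat.sub_le _ _).trans (Nat.pow_le_pow_right hb0 hkn)
        exact Nat.mul_le_mul hb (Nat.mul_le_mul (Nat.mul_le_mul h4 h5) le_rfl)
      exact_mod_cast h3
    have h3 : (2 * (q : ℝ)) ^ μ ≤ (b : ℝ) ^ (μ * (n + T + r + 1)) := by
      rw [mul_comm μ, pow_mul]
      exact pow_le_pow_left₀ (by positivity) h2 _
    have e : (r : ℝ) * ((b : ℝ) ^ k' * ((b : ℝ) ^ T * x) - (b : ℝ) ^ k * ((b : ℝ) ^ T * x)) - p
        = q * x - p := by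
      rw [hqr]; ring
    rw [e]
    exact h1.trans (mul_le_mul_of_nonneg_right h3 (abs_nonneg _))
  obtain ⟨s, hsn, hsW, hs⟩ := hsep (μ * (n + T + r + 1)) ((b : ℝ) ^ T * x) hcond
  set em := s.orderEmbOfFin hsn with hem
  have hmem : ∀ i, em i ∈ s := fun i => Finset.orderEmbOfFin_mem s hsn i
  refine hN₀ (fun i => C ((b : ℝ) ^ (T + em i)) * P) ?_ ?_ N hN S hS ?_
  · intro i
    exact (natDegree_C_mul_le _ _).trans hP
  · intro i j hij h hh
    have h2 := hs (em i) (hmem i) (em j) (hmem j) (fun h => hij (em.injective h)) h hh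
    have e : (C ((b : ℝ) ^ (T + em i)) * P).coeff (d + 1)
          - (C ((b : ℝ) ^ (T + em j)) * P).coeff (d + 1)
        = (b : ℝ) ^ em i * ((b : ℝ) ^ T * x) - (b : ℝ) ^ em j * ((b : ℝ) ^ T * x) := by
      rw [coeff_C_mul, coeff_C_mul, pow_add, pow_add, hc]; ring
    simp only [e]
    exact h2
  · intro l hl
    refine ⟨g l, fun i => ?_⟩
    have hle := hsW _ (hmem i)
    have h2 := hg l hl (T + em i) (by omega) (by
      have e : (μ + 1) * T + (n + μ * (n + r + 1)) = T + (n + μ * (n + T + r + 1)) := by ring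
      omega)
    have e : (C ((b : ℝ) ^ (T + em i)) * P).eval (l : ℝ)
        = (b : ℝ) ^ (T + em i) * P.eval (l : ℝ) := by
      rw [eval_mul, eval_C]
    simp only [e]
    exact h2

end Pool.Agent.H639R3.PQ
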