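import Mathlib
import Pool.Agent.H639R3.PQ.Win

set_option autoImplicit false

/-! # Occurrences of blocks in the expansions of the numbers of a progression -/

namespace Pool.Agent.H639R3.PQ

open Filter Polynomial Finset

theorem block_near {b L w : ℕ} (hb : 2 ≤ b) (hw : w < b ^ L) (y : ℝ) (k : ℕ)
    (h : |((b : ℝ) ^ k * y - ((w : ℝ) + 1 / 2) / b ^ L)
      - round ((b : ℝ) ^ k * y - ((w : ℝ) + 1 / 2) / b ^ L)| < 1 / (4 * b ^ L)) :
    ⌊(b : ℝ) ^ (k + L) * y⌋ % ((b : ℤ) ^ L) = w := by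
  have hb0 : (0 : ℝ) < b := by exact_mod_cast (by omega : 0 < b)
  set z : ℤ := round ((b : ℝ) ^ k * y - ((w : ℝ) + 1 / 2) / b ^ L) with hz
  have hA0 : (0 : ℝ) < (b : ℝ) ^ L := by positivity
  have h1 : |(b : ℝ) ^ (k + L) * y - ((b : ℝ) ^ L * z + w + 1 / 2)| < 1 / 4 := by
    have e : (b : ℝ) ^ (k + L) * y - ((b : ℝ) ^ L * z + w + 1 / 2)
        = (b : ℝ) ^ L * (((b : ℝ) ^ k * y - ((w : ℝ) + 1 / 2) / b ^ L) - z) := by
      rw [pow_add]; field_simp; ring
    rw [e, abs_mul, abs_of_pos hA0]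
    calc _ < (b : ℝ) ^ L * (1 / (4 * b ^ L)) := mul_lt_mul_of_pos_left h hA0
      _ = 1 / 4 := by field_simp
  obtain ⟨c1, c2⟩ := abs_lt.1 h1
  have hfl : ⌊(b : ℝ) ^ (k + L) * y⌋ = w + (b : ℤ) ^ L * z := by
    rw [Int.floor_eq_iff]
    push_cast
    constructor <;> linarith
  rw [hfl, Int.add_mul_emod_self_left]
  exact Int.emod_eq_of_lt (by positivity) (by exact_mod_cast hw)

theorem not_liouville {x : ℝ} (hx : Irrational x) (hl : ¬ Liouville x) :
    ∃ μ : ℕ, ∀ q : ℕ, 1 ≤ q → ∀ p : ℤ, 1 ≤ (2 * (q : ℝ)) ^ μ * |q * x - p| := by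
  unfold Liouville at hl
  push Not at hl
  obtain ⟨μ, hμ⟩ := hl
  refine ⟨μ, fun q hq p => ?_⟩
  have hq0 : (1 : ℝ) ≤ q := by exact_mod_cast hq
  have hne : x ≠ ((2 * p : ℤ) : ℝ) / ((2 * q : ℤ) : ℝ) := by
    intro h
    apply hx
    exact ⟨((2 * p : ℤ) : ℚ) / ((2 * q : ℤ) : ℚ), by rw [h]; push_cast; rfl⟩
  have h1 := hμ (2 * p) (2 * q) (by omega) hne
  push_cast at h1
  rw [div_le_iff₀ (by positivity)] at h1
  have h2 : |x - 2 * (p : ℝ) / (2 * q)| ≤ |q * x - p| := by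
    have e : (q : ℝ) * x - p = q * (x - 2 * (p : ℝ) / (2 * q)) := by field_simp
    rw [e, abs_mul, abs_of_nonneg (by positivity : (0 : ℝ) ≤ q)]
    exact le_mul_of_one_le_left (abs_nonneg _) hq0
  calc (1 : ℝ) ≤ |x - 2 * (p : ℝ) / (2 * q)| * (2 * q) ^ μ := h1
    _ ≤ |q * x - p| * (2 * q) ^ μ := mul_le_mul_of_nonneg_right h2 (by positivity)
    _ = _ := mul_comm _ _

open Classical in
theorem occ_main (x : ℝ)
    (hx : ∃ μ : ℕ, ∀ q : ℕ, 1 ≤ q → ∀ p : ℤ, 1 ≤ (2 * (q : ℝ)) ^ μ * |q * x - p|) :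
    ∃ c : ℝ, 0 < c ∧ ∀ b L d : ℕ, 2 ≤ b → 1 ≤ d → ∀ δ : ℝ, 0 < δ → ∃ N₀ T₀ : ℕ,
      ∀ P : ℝ[X], P.natDegree = d → P.leadingCoeff = x → ∀ N ≥ N₀, ∀ T ≥ T₀,
      (((range N).filter (fun l : ℕ => ∃ w < b ^ L,
        (((range T).filter (fun k => ⌊(b : ℝ) ^ (k + L) * P.eval (l : ℝ)⌋ % ((b : ℤ) ^ L)
          = w)).card : ℝ) < c * Real.log T)).card : ℝ) ≤ δ * N := by
  obtain ⟨μ, hμ⟩ := hx
  set D : ℕ := μ + 3 with hD
  have hD1 : 1 < D := by omega
  have hlogD : 0 < Real.log D := Real.log_pos (by exact_mod_cast hD1)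
  refine ⟨1 / (4 * Real.log D), by positivity, fun b L d hb hd δ hδ => ?_⟩
  have hb0 : (0 : ℝ) < b := by exact_mod_cast (by omega : 0 < b)
  set ε : ℝ := 1 / (4 * b ^ L) with hε
  have hε0 : 0 < ε := by positivity
  obtain ⟨N₀, B, hcount⟩ := count1w b hb (d - 1) ε (δ / 2) hε0 (by positivity) μ
  set j0 : ℕ := B + 1 with hj0
  refine ⟨N₀, D ^ (2 * (1 + j0)), fun P hP hPx N hN T hT => ?_⟩
  have hPd : P.natDegree ≤ d - 1 + 1 := by omega
  have hPc : P.coeff (d - 1 + 1) = x := by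
    rw [show d - 1 + 1 = P.natDegree by omega]; exact hPx
  have hT0 : 0 < T := lt_of_lt_of_le (by positivity) hT
  set j1 : ℕ := Nat.log D T with hj1
  have hT1 : D ^ j1 ≤ T := Nat.pow_log_le_self D (by omega)
  have hT2 : T < D ^ (j1 + 1) := Nat.lt_pow_succ_log_self hD1 T
  have hj : 2 * (1 + j0) ≤ j1 := by
    rw [hj1]; exact (Nat.le_log_iff_pow_le hD1 (by omega)).2 hT
  set bad : ℕ → ℕ → Prop := fun l j => ∃ γ : ℝ, ∀ k, D ^ j ≤ k → k ≤ (μ + 1) * D ^ j + B →
    ε ≤ |((b : ℝ) ^ k * P.eval (l : ℝ) - γ) - round ((b : ℝ) ^ k * P.eval (l : ℝ) - γ)| with hbad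
  have hB : ∀ j, (((range N).filter (fun l => bad l j)).card : ℝ) ≤ δ / 2 * N := fun j =>
    hcount x hμ P hPd hPc N hN (D ^ j) _ (filter_subset _ _) fun l hl => (mem_filter.1 hl).2
  set m : ℕ := j1 - j0 with hm
  have hm0 : 0 < m := by omega
  set S' := (range N).filter (fun l => m < 2 * ((Ico j0 j1).filter (fun j => bad l j)).card) with hS'
  have hS'card : (S'.card : ℝ) ≤ δ * N := by
    have h1 : m * S'.card ≤ 2 * ∑ l ∈ range N, ((Ico j0 j1).filter (fun j => bad l j)).card := by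
      calc m * S'.card = ∑ _l ∈ S', m := by rw [sum_const, smul_eq_mul, mul_comm]
        _ ≤ ∑ l ∈ S', 2 * ((Ico j0 j1).filter (fun j => bad l j)).card :=
          sum_le_sum fun l hl => (mem_filter.1 hl).2.le
        _ ≤ ∑ l ∈ range N, 2 * ((Ico j0 j1).filter (fun j => bad l j)).card :=
          sum_le_sum_of_subset (filter_subset _ _)
        _ = _ := by rw [mul_sum]
    have h2 : ∑ l ∈ range N, ((Ico j0 j1).filter (fun j => bad l j)).card
        = ∑ j ∈ Ico j0 j1, ((range N).filter (fun l => bad l j)).card :=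
      sum_card_bipartiteAbove_eq_sum_card_bipartiteBelow bad
    have h3 : (m : ℝ) * S'.card ≤ m * (δ * N) := by
      calc (m : ℝ) * S'.card
          ≤ 2 * ∑ j ∈ Ico j0 j1, (((range N).filter (fun l => bad l j)).card : ℝ) := by
            rw [h2] at h1; exact_mod_cast h1
        _ ≤ 2 * ∑ _j ∈ Ico j0 j1, δ / 2 * N :=
            mul_le_mul_of_nonneg_left (sum_le_sum fun j _ => hB j) (by norm_num)
        _ = m * (δ * N) := by
            rw [sum_const, Nat.card_Ico, nsmul_eq_mul, ← hm]; ring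
    exact le_of_mul_le_mul_left h3 (by exact_mod_cast hm0)
  refine le_trans ?_ hS'card
  have hsub : (range N).filter (fun l : ℕ => ∃ w < b ^ L,
        (((range T).filter (fun k => ⌊(b : ℝ) ^ (k + L) * P.eval (l : ℝ)⌋ % ((b : ℤ) ^ L)
          = w)).card : ℝ) < 1 / (4 * Real.log D) * Real.log T) ⊆ S' := by
    intro l hlm
    obtain ⟨hlN, w, hw, hlt⟩ := mem_filter.1 hlm
    rw [hS', mem_filter]
    refine ⟨hlN, ?_⟩
    by_contra hcon
    push Not at hcon
    -- good windows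
    set G := (Ico j0 j1).filter (fun j => ¬ bad l j) with hG
    have hGm : m ≤ 2 * G.card := by
      have h1 : ((Ico j0 j1).filter (fun j => bad l j)).card + G.card = m := by
        rw [hG, card_filter_add_card_filter_not, Nat.card_Ico]
      omega
    have hex : ∀ j ∈ G, ∃ k, D ^ j ≤ k ∧ k ≤ (μ + 1) * D ^ j + B ∧
        ⌊(b : ℝ) ^ (k + L) * P.eval (l : ℝ)⌋ % ((b : ℤ) ^ L) = w := by
      intro j hjG
      have h1 := (mem_filter.1 hjG).2
      simp only [hbad] at h1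
      push Not at h1
      obtain ⟨k, hk1, hk2, hk3⟩ := h1 (((w : ℝ) + 1 / 2) / b ^ L)
      exact ⟨k, hk1, hk2, block_near hb hw _ k hk3⟩
    choose! kk hk1 hk2 hk3 using hex
    have hklt : ∀ j ∈ G, kk j < D ^ (j + 1) := by
      intro j hjG
      have hjj := mem_Ico.1 (mem_filter.1 hjG).1
      have h1 : B + 1 ≤ D ^ j := by
        have h2 : B + 1 < D ^ (B + 1) := Nat.lt_pow_self hD1
        have h3 : D ^ (B + 1) ≤ D ^ j := Nat.pow_le_pow_right (by omega) hjj.1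
        omega
      have h4 := hk2 j hjG
      have h5 : D ^ (j + 1) = (μ + 1) * D ^ j + 2 * D ^ j := by rw [pow_succ, hD]; ring
      omega
    have hinj : Set.InjOn kk (G : Set ℕ) := by
      intro i hi j hjj hij
      by_contra hne
      rcases lt_or_gt_of_ne hne with h | h
      · have h1 := hklt i hi
        have h2 := hk1 j hjj
        have h3 : D ^ (i + 1) ≤ D ^ j := Nat.pow_le_pow_right (by omega) h
        omega
      · have h1 := hklt j hjj
        have h2 := hk1 i hi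
        have h3 : D ^ (j + 1) ≤ D ^ i := Nat.pow_le_pow_right (by omega) h
        omega
    have hle : G.card ≤ ((range T).filter (fun k =>
        ⌊(b : ℝ) ^ (k + L) * P.eval (l : ℝ)⌋ % ((b : ℤ) ^ L) = w)).card := by
      rw [← card_image_of_injOn hinj]
      apply card_le_card
      intro k hk
      obtain ⟨j, hjG, rfl⟩ := mem_image.1 hk
      refine mem_filter.2 ⟨mem_range.2 ?_, hk3 j hjG⟩
      have hjj := mem_Ico.1 (mem_filter.1 hjG).1
      have h1 := hklt j hjG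
      have h3 : D ^ (j + 1) ≤ D ^ j1 := Nat.pow_le_pow_right (by omega) hjj.2
      omega
    have hmr : (m : ℝ) ≤ 2 * G.card := by exact_mod_cast hGm
    have hler : (G.card : ℝ) ≤ (((range T).filter (fun k =>
        ⌊(b : ℝ) ^ (k + L) * P.eval (l : ℝ)⌋ % ((b : ℤ) ^ L) = w)).card : ℝ) := by exact_mod_cast hle
    have hlog1 : Real.log T ≤ (j1 + 1) * Real.log D := by
      have : (T : ℝ) ≤ (D : ℝ) ^ (j1 + 1) := by exact_mod_cast hT2.le
      calc Real.log T ≤ Real.log ((D : ℝ) ^ (j1 + 1)) :=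
            Real.log_le_log (by exact_mod_cast hT0) this
        _ = (j1 + 1) * Real.log D := by rw [Real.log_pow]; push_cast; ring
    have hmr2 : (m : ℝ) = j1 - j0 := by rw [hm, Nat.cast_sub (by omega)]
    have hjr : 2 * (1 + (j0 : ℝ)) ≤ j1 := by exact_mod_cast hj
    have hfin : 1 / (4 * Real.log D) * Real.log T ≤ (m : ℝ) / 2 := by
      have h1 : 1 / (4 * Real.log D) * Real.log T ≤ 1 / (4 * Real.log D) * ((j1 + 1) * Real.log D) :=
        mul_le_mul_of_nonneg_left hlog1 (by positivity)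
      have h2 : 1 / (4 * Real.log D) * ((j1 + 1) * Real.log D) = ((j1 : ℝ) + 1) / 4 := by
        field_simp
      rw [h2] at h1
      rw [hmr2]
      linarith
    linarith
  exact_mod_cast card_le_card hsub

end Pool.Agent.H639R3.PQ
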